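import Mathlib
import Pool.Agent.H967KS.Fin

/-!
# Conjugacy of Kupka-Smale diffeomorphisms is above the isomorphism of countable graphs

For `M = S¹ × S¹` and every `r ∈ {1, 2, …, ∞}` the isomorphism of the countable graphs (of all binary
relations on `ℕ`) is Borel reducible to topological conjugacy on `KS^r(M)`, the isomorphism of the
linear orders on `ℕ` is continuously reducible to it, every analytic set is continuously reducible
to the conjugacy relation, and the complement of this relation is not analytic.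
-/

set_option autoImplicit false

open scoped Manifold ContDiff
open Pool.Agent.H410R3.KS Pool.Agent.H967KS MeasureTheory

namespace Pool.Agent.Results.MP_632c34_an.GraphIsomorphism

section General

variable {E H : Type} [NormedAddCommGroup E] [NormedSpace ℝ E] [FiniteDimensional ℝ E]
  [TopologicalSpace H] (I : ModelWithCorners ℝ E H)
  (M : Type) [TopologicalSpace M] [ChartedSpace H M] [IsManifold I ∞ M]

/-- Topological conjugacy on `KS^r(M)`, as a subset of `KS^r(M) × KS^r(M)`. -/
def conj (r : ℕ∞) : Set (KSDiff I M r × KSDiff I M r) :=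
  {p | TopConj p.1.1.map p.2.1.map}

/-- Isomorphism of the binary relations on `ℕ` is Borel reducible to conjugacy on `KS^r(M)`. -/
def GraphsReduce (r : ℕ∞) : Prop :=
  ∃ Φ : (ℕ × ℕ → Bool) → KSDiff I M r,
    @Measurable (ℕ × ℕ → Bool) (KSDiff I M r) (borel _) (borel _) Φ ∧
    ∀ G G' : ℕ × ℕ → Bool, (Φ G, Φ G') ∈ conj I M r ↔ IsoRel G G'

/-- Isomorphism of the linear orders on `ℕ` is continuously reducible to conjugacy on `KS^r(M)`. -/
def OrdersReduce (r : ℕ∞) : Prop :=
  ∃ Φ : OrderCode → KSDiff I M r, Continuous Φ ∧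
    ∀ L L' : OrderCode, (Φ L, Φ L') ∈ conj I M r ↔ L.Iso L'

/-- Every analytic subset of the Baire space is the preimage of the conjugacy relation under a
continuous map. -/
def AnalyticReduce (r : ℕ∞) : Prop :=
  ∀ A : Set (ℕ → ℕ), AnalyticSet A →
    ∃ Ψ : (ℕ → ℕ) → KSDiff I M r × KSDiff I M r, Continuous Ψ ∧ Ψ ⁻¹' (conj I M r) = A

/-- The five statements about the conjugacy relation on `KS^r(M)`. -/
def Complexity (r : ℕ∞) : Prop :=
  GraphsReduce I M r ∧ OrdersReduce I M r ∧ AnalyticReduce I M r ∧
    ¬ AnalyticSet (conj I M r)ᶜ ∧ ¬ ConjIsBorel I M r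

end General

theorem result (r : ℕ∞) (_hr : 1 ≤ r) : Complexity ((𝓡 1).prod (𝓡 1)) (Circle × Circle) r :=
  ⟨graph_main r, ⟨Phi r, Phi_cont r, Phi_iff r⟩, hard r, compl_not_analytic r, main r⟩

end Pool.Agent.Results.MP_632c34_an.GraphIsomorphism
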